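import Pool.Agent.Lib.MP_359fef_co.Base

/-!
# Task D: evaluation of the transfer kernels at an irreducible element
-/

namespace Pool.Agent.MP_359fef_co

open Finset Matrix Module

universe u
set_option linter.unusedVariables false

section D
variable {K : Type u} [Field K]

/-- A subspace stable under the transpose of an irreducible matrix is trivial. -/
theorem irred_vecMul {n : ℕ} (c : Matrix (Fin n) (Fin n) K) (hirr : IsIrred c)
    (S : Submodule K (Fin n → K)) (hS : ∀ x ∈ S, x ᵥ* c ∈ S) : S = ⊥ ∨ S = ⊤ := by
  let P : Submodule K (Fin n → K) :=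
    { carrier := {y | ∀ x ∈ S, x ⬝ᵥ y = 0}
      add_mem' := by
        intro a b ha hb x hx
        rw [dotProduct_add, ha x hx, hb x hx, add_zero]
      zero_mem' := by
        intro x _
        exact dotProduct_zero x
      smul_mem' := by
        intro r a ha x hx
        rw [dotProduct_smul, ha x hx, smul_zero] }
  have hP : ∀ y ∈ P, c *ᵥ y ∈ P := by
    intro y hy x hx
    show x ⬝ᵥ (c *ᵥ y) = 0
    rw [dotProduct_mulVec]
    exact hy _ (hS x hx)
  rcases hirr P hP with h | h
  · right
    by_contra hne
    obtain ⟨φ, hφ, hle⟩ := Submodule.exists_le_ker_of_lt_top S (lt_top_iff_ne_top.mpr hne)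
    apply hφ
    have hmem : (fun i => φ (Pi.single i 1)) ∈ P := by
      intro x hx
      have : φ x = 0 := hle hx
      rw [← this]
      conv_rhs => rw [pi_eq_sum_univ' x]
      rw [map_sum]
      simp only [map_smul, smul_eq_mul, dotProduct]
    rw [h, Submodule.mem_bot] at hmem
    ext i
    have := congrFun hmem i
    simpa using this
  · left
    rw [eq_bot_iff]
    intro x hx
    rw [Submodule.mem_bot]
    ext i
    have h1 : (Pi.single i 1 : Fin n → K) ∈ P := by rw [h]; trivial
    have := h1 x hx
    simpa using this

/-- The key vanishing statement: `b_i = h'(∑ c_ij b_j)` has only the zero solution. -/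
theorem irred_sol_zero {n : ℕ} (c : Matrix (Fin n) (Fin n) K) (hirr : IsIrred c)
    {W : Type u} [AddCommGroup W] [Module K W] [FiniteDimensional K W] (h : W →ₗ[K] W)
    (hinj : Function.Injective h)
    (hk : finrank K W < n) (b : Fin n → W) (hb : ∀ i, b i = h (∑ j, c i j • b j)) : b = 0 := by
  classical
  let T : (Fin n → K) →ₗ[K] W := Fintype.linearCombination K b
  have hT : ∀ x : Fin n → K, T x = h (T (x ᵥ* c)) := by
    intro x
    simp only [T, Fintype.linearCombination_apply, map_sum, map_smul, vecMul, dotProduct]
    have : ∀ i, x i • b i = ∑ j, (x i * c i j) • h (b j) := by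
      intro i
      rw [hb i]
      conv_lhs => rw [map_sum, Finset.smul_sum]
      refine Finset.sum_congr rfl (fun j _ => ?_)
      rw [map_smul, smul_smul]
    simp only [this, Finset.sum_smul]
    rw [Finset.sum_comm]
  have hst : ∀ x ∈ LinearMap.ker T, x ᵥ* c ∈ LinearMap.ker T := by
    intro x hx
    rw [LinearMap.mem_ker] at hx ⊢
    rw [hT x] at hx
    exact (map_eq_zero_iff h hinj).1 hx
  rcases irred_vecMul c hirr _ hst with hbot | htop
  · exfalso
    have h1 : Function.Injective T := LinearMap.ker_eq_bot.1 hbot
    have h2 := LinearMap.finrank_le_finrank_of_injective h1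
    rw [finrank_fin_fun] at h2
    omega
  · ext i
    have : (Pi.single i 1 : Fin n → K) ∈ LinearMap.ker T := by rw [htop]; trivial
    rw [LinearMap.mem_ker] at this
    simpa [T, Fintype.linearCombination_apply, Pi.single_apply, ite_smul] using this

end D

section D2
variable {K : Type u} [Field K] [Fintype K] {C : Cj K}

/-- Task D: evaluation at an irreducible element. -/
theorem taskD1 {n : ℕ} (c : Matrix (Fin n) (Fin n) K) (hc : InGU C.q c) (hirr : IsIrred c)
    {W : Type u} [AddCommGroup W] [Module K W] [Finite W] (h : W ≃ₗ[K] W)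
    (hk : finrank K W < n) : KR C h.toLinearMap.graph c = 1 := by
  have hfd : FiniteDimensional K W := Module.Finite.of_finite
  have : solL (h.toLinearMap.graph) c = (⊥ : Submodule K (Fin n → W)) := by
    rw [eq_bot_iff]
    intro b hb
    rw [Submodule.mem_bot]
    refine irred_sol_zero c hirr h.toLinearMap h.injective hk b (fun i => ?_)
    have := hb i
    rw [LinearMap.mem_graph_iff] at this
    exact this
  rw [KR, this, finrank_bot, pow_zero]

theorem taskD3 {n : ℕ} (c : Matrix (Fin n) (Fin n) K) (hc : InGU C.q c) (hirr : IsIrred c)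
    {W : Type u} [AddCommGroup W] [Module K W] [Finite W] (H : Herm C W) (h : W ≃ₗ[K] W)
    (hh : ∀ x y, H.f (h x) (h y) = H.f x y) (hk : finrank K W < n) (w : W) (μ : K) (h0 : μ ≠ 0)
    (hμ : μ + C.σ μ = - H.f w w) : kap H h c w μ = 1 := by
  have hfd : FiniteDimensional K W := Module.Finite.of_finite
  let fw : W →ₗ[K] K :=
    { toFun := H.f w
      map_add' := H.add_right w
      map_smul' := fun a x => H.smul_right a w x }
  let t : W →ₗ[K] W := LinearMap.id + (μ⁻¹ • fw).smulRight w
  have ht : ∀ x, t x = x + (μ⁻¹ * H.f w x) • w := by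
    intro x
    simp [t, fw]
  have htinj : Function.Injective t := by
    rw [← LinearMap.ker_eq_bot, eq_bot_iff]
    intro x hx
    rw [LinearMap.mem_ker, ht] at hx
    rw [Submodule.mem_bot]
    have h1 : fw x + (μ⁻¹ * H.f w x) * fw w = 0 := by
      have := congrArg fw hx
      simpa using this
    have h2 : H.f w x * (μ + H.f w w) = 0 := by
      have : H.f w x + (μ⁻¹ * H.f w x) * H.f w w = 0 := h1
      field_simp at this
      linear_combination this
    have h3 : μ + H.f w w ≠ 0 := by
      intro h4
      have h5 : C.σ μ = 0 := by linear_combination hμ - h4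
      exact h0 ((map_eq_zero C.σ).1 h5)
    rcases mul_eq_zero.1 h2 with h4 | h4
    · rw [h4] at hx
      simpa using hx
    · exact absurd h4 h3
  have hbot : Ssp H h c w μ = ⊥ := by
    rw [eq_bot_iff]
    rintro ⟨η, v⟩ ⟨e1, e2⟩
    simp only at e1 e2
    have hη' : ∀ i, H.f w (η i - v i • w) = μ * v i := by
      intro i
      have := fw.map_sub (η i) (v i • w)
      have h6 : H.f w (η i - v i • w) = H.f w (η i) - v i * H.f w w := by
        simpa [fw, H.smul_right] using this
      rw [h6, e2 i]
      linear_combination (-(v i)) * hμ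
    have hteta : ∀ i, t (η i - v i • w) = η i := by
      intro i
      rw [ht, hη' i]
      rw [← mul_assoc, inv_mul_cancel₀ h0, one_mul, sub_add_cancel]
    have hz : (fun i => η i - v i • w) = 0 := by
      refine irred_sol_zero c hirr (h.toLinearMap.comp t) (h.injective.comp htinj) hk _
        (fun i => ?_)
      rw [map_sum]
      simp only [map_smul, LinearMap.comp_apply, hteta, LinearEquiv.coe_coe]
      rw [← e1 i]
      abel
    have hv : v = 0 := by
      ext i
      have h7 := hη' i
      have h8 : η i - v i • w = 0 := congrFun hz i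
      rw [h8] at h7
      have h9 : H.f w 0 = 0 := fw.map_zero
      rw [h9] at h7
      simpa [h0] using h7.symm
    have hη : η = 0 := by
      ext i
      have h8 : η i - v i • w = 0 := congrFun hz i
      rw [hv] at h8
      simpa using h8
    rw [hv, hη]
    exact Submodule.zero_mem _
  rw [kap, hbot, finrank_bot, pow_zero]

open Classical in
theorem taskD2 {n : ℕ} (c : Matrix (Fin n) (Fin n) K) (hc : InGU C.q c) (hirr : IsIrred c)
    {W : Type u} [AddCommGroup W] [Module K W] [Finite W] (H : Herm C W) (h : W ≃ₗ[K] W)
    (hh : ∀ x y, H.f (h x) (h y) = H.f x y) (hk : finrank K W < n) (w : W) (hw : H.f w w = 0) :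
    kap H h c w 0 = if (∀ r : ℕ, H.f w ((h ^ r) w) = 0) then C.X ^ n else 1 := by
  have hfd : FiniteDimensional K W := Module.Finite.of_finite
  let fw : W →ₗ[K] K :=
    { toFun := H.f w
      map_add' := H.add_right w
      map_smul' := fun a x => H.smul_right a w x }
  -- the second projection is injective on `S`
  let π : Ssp H h c w 0 →ₗ[K] (Fin n → K) :=
    (LinearMap.snd K (Fin n → W) (Fin n → K)).comp (Ssp H h c w 0).subtype
  have hzero : ∀ η : Fin n → W, (∀ i, η i = ∑ j, c i j • h (η j)) → η = 0 := by
    intro η hη
    refine irred_sol_zero c hirr h.toLinearMap h.injective hk η (fun i => ?_)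
    rw [hη i]
    conv_rhs => rw [map_sum]
    refine Finset.sum_congr rfl (fun j _ => ?_)
    rw [map_smul, LinearEquiv.coe_coe]
  have hπinj : Function.Injective π := by
    rw [← LinearMap.ker_eq_bot, eq_bot_iff]
    rintro ⟨⟨η, v⟩, e1, e2⟩ hx
    have hv : v = 0 := hx
    simp only at e1 e2
    have hη : η = 0 := hzero η (fun i => by
      have := e1 i
      rw [hv] at this
      simp only [Pi.zero_apply, zero_smul] at this
      exact sub_eq_zero.1 this)
    simp only [Submodule.mem_bot, hη, hv]
    rfl
  have hfin : finrank K (Ssp H h c w 0) = finrank K (LinearMap.range π) :=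
    (LinearMap.finrank_range_of_inj hπinj).symm
  have hstab : ∀ x ∈ LinearMap.range π, c *ᵥ x ∈ LinearMap.range π := by
    rintro _ ⟨⟨⟨η, v⟩, e1, e2⟩, rfl⟩
    simp only at e1 e2
    refine ⟨⟨(fun i => ∑ j, c i j • η j, c *ᵥ v), fun i => ?_, fun i => ?_⟩, rfl⟩
    · simp only
      have : ∀ j, h (∑ k, c j k • η k) = ∑ k, c j k • h (η k) := by
        intro j
        rw [map_sum]
        simp only [map_smul]
      simp only [this, ← Finset.sum_sub_distrib, ← smul_sub, e1, mulVec, dotProduct,
        Finset.sum_smul, smul_smul]
    · simp only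
      show fw (∑ j, c i j • η j) = _
      rw [map_sum]
      have : ∀ j, fw (η j) = 0 := by
        intro j
        have := e2 j
        show H.f w (η j) = 0
        simpa using this
      simp only [map_smul, this, smul_zero, Finset.sum_const_zero, map_zero, neg_zero, zero_mul]
  rw [kap, hfin]
  by_cases hcond : ∀ r : ℕ, H.f w ((h ^ r) w) = 0
  · rw [if_pos hcond]
    have htop : LinearMap.range π = ⊤ := by
      let Φ : (Fin n → W) →ₗ[K] (Fin n → W) :=
        LinearMap.pi (fun i => LinearMap.proj i -
          ∑ j, c i j • (h.toLinearMap.comp (LinearMap.proj j)))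
      have hΦ : ∀ η i, Φ η i = η i - ∑ j, c i j • h (η j) := by
        intro η i
        simp [Φ, LinearMap.sum_apply]
      have hΦinj : Function.Injective Φ := by
        rw [← LinearMap.ker_eq_bot, eq_bot_iff]
        intro η hη
        rw [LinearMap.mem_ker] at hη
        rw [Submodule.mem_bot]
        refine hzero η (fun i => ?_)
        have := congrFun hη i
        rw [hΦ] at this
        exact sub_eq_zero.1 this
      let Dw : Submodule K W := Submodule.span K (Set.range (fun r : ℕ => (h ^ r) w))
      have hDh : ∀ x ∈ Dw, h x ∈ Dw := by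
        intro x hx
        induction hx using Submodule.span_induction with
        | mem x hx =>
          obtain ⟨r, rfl⟩ := hx
          refine Submodule.subset_span ⟨r + 1, ?_⟩
          simp only [pow_succ']
          rfl
        | zero => rw [map_zero]; exact Submodule.zero_mem _
        | add x y _ _ hx hy => rw [map_add]; exact Submodule.add_mem _ hx hy
        | smul a x _ hx => rw [map_smul]; exact Submodule.smul_mem _ _ hx
      have hwD : w ∈ Dw := Submodule.subset_span ⟨0, by simp⟩
      have hDw : ∀ x ∈ Dw, H.f w x = 0 := by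
        intro x hx
        have hle : Dw ≤ LinearMap.ker fw := by
          rw [Submodule.span_le]
          rintro _ ⟨r, rfl⟩
          exact hcond r
        exact hle hx
      let E : Submodule K (Fin n → W) := Submodule.pi Set.univ (fun _ => Dw)
      have hmapE : Submodule.map Φ E = E := by
        apply Submodule.eq_of_le_of_finrank_eq
        · rintro _ ⟨η, hη, rfl⟩
          intro i _
          rw [hΦ]
          refine Submodule.sub_mem _ (hη i trivial) (Submodule.sum_mem _ (fun j _ => ?_))
          exact Submodule.smul_mem _ _ (hDh _ (hη j trivial))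
        · exact (Submodule.equivMapOfInjective Φ hΦinj E).finrank_eq.symm
      rw [eq_top_iff]
      intro v _
      have hvE : (fun i => v i • w) ∈ E := fun i _ => Submodule.smul_mem _ _ hwD
      rw [← hmapE] at hvE
      obtain ⟨η, hη, hηv⟩ := hvE
      refine ⟨⟨(η, v), fun i => ?_, fun i => ?_⟩, rfl⟩
      · have := congrFun hηv i
        rw [hΦ] at this
        exact this
      · simp only
        rw [hDw _ (hη i trivial)]
        simp
    rw [htop, finrank_top, finrank_fin_fun]
  · rw [if_neg hcond]
    have hbot : LinearMap.range π = ⊥ := by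
      by_contra hne
      apply hcond
      obtain ⟨v, ⟨⟨⟨η, v'⟩, e1, e2⟩, rfl⟩, hv⟩ := Submodule.exists_mem_ne_zero_of_ne_bot hne
      change v' ≠ 0 at hv
      simp only at e1 e2
      let τ : Dual K W →ₗ[K] (Fin n → K) := LinearMap.pi (fun i => Dual.eval K W (η i))
      have hτ : ∀ l i, τ l i = l (η i) := fun l i => rfl
      have hτeq : ∀ l : Dual K W, τ l = c *ᵥ (τ (l.comp h.toLinearMap)) + l w • v' := by
        intro l
        ext i
        have h1 := congrArg l (e1 i)
        rw [map_sub, map_sum] at h1
        simp only [map_smul, smul_eq_mul] at h1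
        simp only [Pi.add_apply, mulVec, dotProduct, hτ, Pi.smul_apply, smul_eq_mul,
          LinearMap.comp_apply, LinearEquiv.coe_coe]
        linear_combination h1
      have hc' : ∀ x : Fin n → K, c *ᵥ x = 0 → x = 0 := by
        intro x hx
        have h1 : (cᵀ.map (fun x => x ^ C.q)) * c = 1 := mul_eq_one_comm.1 hc
        calc x = (1 : Matrix (Fin n) (Fin n) K) *ᵥ x := (one_mulVec x).symm
          _ = (cᵀ.map (fun x => x ^ C.q)) *ᵥ (c *ᵥ x) := by rw [mulVec_mulVec, h1]
          _ = 0 := by rw [hx, mulVec_zero]
      have hkey : ∀ l : Dual K W, τ l = 0 → l w = 0 := by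
        intro l hl
        by_contra hlw
        have h1 : v' = c *ᵥ ((-(l w)⁻¹) • τ (l.comp h.toLinearMap)) := by
          have h2 := hτeq l
          rw [hl] at h2
          have h3 : v' = (l w)⁻¹ • (l w • v') := by rw [smul_smul, inv_mul_cancel₀ hlw, one_smul]
          rw [h3, mulVec_smul]
          have h4 : l w • v' = - (c *ᵥ (τ (l.comp h.toLinearMap))) := by
            rw [eq_neg_iff_add_eq_zero, add_comm]
            exact h2.symm
          rw [h4]
          simp
        set u := (-(l w)⁻¹) • τ (l.comp h.toLinearMap) with hu
        have hur : u ∈ LinearMap.range τ := Submodule.smul_mem _ _ ⟨_, rfl⟩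
        have hle : LinearMap.range τ ≤ Submodule.map c.mulVecLin (LinearMap.range τ) := by
          rintro _ ⟨m, rfl⟩
          refine ⟨τ (m.comp h.toLinearMap) + m w • u,
            Submodule.add_mem _ ⟨_, rfl⟩ (Submodule.smul_mem _ _ hur), ?_⟩
          rw [mulVecLin_apply, mulVec_add, mulVec_smul, ← h1, ← hτeq]
        have heq : LinearMap.range τ = Submodule.map c.mulVecLin (LinearMap.range τ) :=
          Submodule.eq_of_le_of_finrank_le hle (Submodule.finrank_map_le _ _)
        have hst2 : ∀ x ∈ LinearMap.range τ, c *ᵥ x ∈ LinearMap.range τ := by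
          intro x hx
          rw [heq]
          exact ⟨x, hx, rfl⟩
        rcases hirr _ hst2 with h5 | h5
        · rw [h5, Submodule.mem_bot] at hur
          rw [hur, mulVec_zero] at h1
          exact hv h1
        · have h6 := LinearMap.finrank_range_le τ
          rw [h5, finrank_top, finrank_fin_fun, Subspace.dual_finrank_eq] at h6
          omega
      have hstep : ∀ l : Dual K W, τ l = 0 → τ (l.comp h.toLinearMap) = 0 := by
        intro l hl
        have h2 := hτeq l
        rw [hl, hkey l hl, zero_smul, add_zero] at h2
        exact hc' _ h2.symm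
      have hall : ∀ r : ℕ, τ (fw.comp (h ^ r : W ≃ₗ[K] W).toLinearMap) = 0 := by
        intro r
        induction r with
        | zero =>
          ext i
          have h7 := e2 i
          show H.f w (((h ^ 0 : W ≃ₗ[K] W)) (η i)) = 0
          rw [pow_zero]
          show H.f w (η i) = 0
          simpa using h7
        | succ r ih =>
          have h8 := hstep _ ih
          rw [pow_succ]
          exact h8
      intro r
      exact hkey _ (hall r)
    rw [hbot, finrank_bot, pow_zero]

end D2

end Pool.Agent.MP_359fef_co
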