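import Pool.Agent.Lib.MP_359fef_co.Base
import Pool.Agent.Lib.MP_359fef_co.U0
import Pool.Agent.Lib.MP_359fef_co_h79.Chi

/-!
# Task E: the numbers `ñ_m` of graphs and of the relations `Λ_{w,0}`
-/

namespace Pool.Agent.MP_359fef_co

open Finset Matrix Module

universe u

set_option linter.unusedSectionVars false

section E
variable {K : Type u} [Field K] [Fintype K] {C : Cj K}

theorem nt_zero {W : Type u} [AddCommGroup W] [Module K W] [Finite W] (H : Herm C W)
    (Λ : Submodule K (W × W)) : nt H Λ 0 = 1 := by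
  classical
  let _ := Fintype.ofFinite (Submodule K W)
  have hbot : (⊥ : Submodule K W) ∈ DD H Λ := by
    refine ⟨?_, ?_⟩
    · intro x hx y _
      rw [Submodule.mem_bot] at hx
      rw [hx]
      exact H.zero_left y
    · intro x hx
      rw [Submodule.mem_bot] at hx
      refine ⟨0, Submodule.zero_mem _, ?_⟩
      rw [hx]
      exact Λ.zero_mem
  have h1 := chi_sum (DD H Λ) ⊥ hbot
  rw [nt]
  simp only [pow_zero, one_mul]
  have h2 : ∑ D : Submodule K W, (chi (DD H Λ) D) = 1 := by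
    rw [← h1, Finset.sum_filter]
    refine Finset.sum_congr rfl (fun D _ => ?_)
    split_ifs with h3
    · rfl
    · refine chi_off _ _ (fun h4 => h3 ⟨h4, bot_le⟩)
  exact_mod_cast h2

/-- `h`-stable totally isotropic subspaces -/
theorem mem_DD_graph {W : Type u} [AddCommGroup W] [Module K W] (H : Herm C W) (h : W ≃ₗ[K] W)
    (D : Submodule K W) : D ∈ DD H h.toLinearMap.graph ↔
      (∀ x ∈ D, ∀ y ∈ D, H.f x y = 0) ∧ ∀ x ∈ D, h x ∈ D := by
  constructor
  · rintro ⟨h1, h2⟩
    refine ⟨h1, fun x hx => ?_⟩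
    obtain ⟨x', hx', he⟩ := h2 x hx
    rw [LinearMap.mem_graph_iff] at he
    simp only at he
    rw [he] at hx'
    exact hx'
  · rintro ⟨h1, h2⟩
    refine ⟨h1, fun x hx => ⟨h x, h2 x hx, ?_⟩⟩
    rw [LinearMap.mem_graph_iff]
    rfl

theorem pow_stable {W : Type u} [AddCommGroup W] [Module K W] (h : W ≃ₗ[K] W)
    (D : Submodule K W) (hD : ∀ x ∈ D, h x ∈ D) (r : ℕ) : ∀ x ∈ D, (h ^ r) x ∈ D := by
  induction r with
  | zero => intro x hx; simpa using hx
  | succ r ih =>
    intro x hx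
    rw [pow_succ]
    exact ih _ (hD x hx)

theorem isom_pow {W : Type u} [AddCommGroup W] [Module K W] (H : Herm C W) (h : W ≃ₗ[K] W)
    (hh : ∀ x y, H.f (h x) (h y) = H.f x y) (r : ℕ) (x y : W) :
    H.f ((h ^ r) x) ((h ^ r) y) = H.f x y := by
  induction r generalizing x y with
  | zero => simp
  | succ r ih =>
    rw [pow_succ]
    show H.f ((h ^ r) (h x)) ((h ^ r) (h y)) = _
    rw [ih, hh]

/-- the subspace generated by the tuple `y` under `h` -/
def orbSpan {W : Type u} [AddCommGroup W] [Module K W] (h : W ≃ₗ[K] W) {m : ℕ} (y : Fin m → W) :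
    Submodule K W :=
  Submodule.span K {z | ∃ (i : Fin m) (r : ℕ), z = (h ^ r) (y i)}

theorem orbSpan_stable {W : Type u} [AddCommGroup W] [Module K W] (h : W ≃ₗ[K] W) {m : ℕ}
    (y : Fin m → W) : ∀ x ∈ orbSpan h y, h x ∈ orbSpan h y := by
  intro x hx
  induction hx using Submodule.span_induction with
  | mem x hx =>
    obtain ⟨i, r, rfl⟩ := hx
    refine Submodule.subset_span ⟨i, r + 1, ?_⟩
    rw [pow_succ']
    rfl
  | zero => rw [map_zero]; exact Submodule.zero_mem _
  | add x y _ _ hx hy => rw [map_add]; exact Submodule.add_mem _ hx hy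
  | smul a x _ hx => rw [map_smul]; exact Submodule.smul_mem _ _ hx

theorem orbSpan_le {W : Type u} [AddCommGroup W] [Module K W] (h : W ≃ₗ[K] W) {m : ℕ}
    (y : Fin m → W) (D : Submodule K W) (hD : ∀ x ∈ D, h x ∈ D) (hy : ∀ i, y i ∈ D) :
    orbSpan h y ≤ D := by
  rw [orbSpan, Submodule.span_le]
  rintro _ ⟨i, r, rfl⟩
  exact pow_stable h D hD r _ (hy i)

theorem mem_orbSpan {W : Type u} [AddCommGroup W] [Module K W] (h : W ≃ₗ[K] W) {m : ℕ}
    (y : Fin m → W) (i : Fin m) : y i ∈ orbSpan h y :=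
  Submodule.subset_span ⟨i, 0, by simp⟩

theorem isot_span {W : Type u} [AddCommGroup W] [Module K W] (H : Herm C W) (s : Set W)
    (hs : ∀ x ∈ s, ∀ y ∈ s, H.f x y = 0) :
    ∀ x ∈ Submodule.span K s, ∀ y ∈ Submodule.span K s, H.f x y = 0 := by
  have h1 : ∀ x ∈ s, ∀ y ∈ Submodule.span K s, H.f x y = 0 := by
    intro x hx y hy
    induction hy using Submodule.span_induction with
    | mem y hy => exact hs x hx y hy
    | zero => exact H.zero_right x
    | add y z _ _ hy hz => rw [H.add_right, hy, hz, add_zero]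
    | smul a y _ hy => rw [H.smul_right, hy, mul_zero]
  intro x hx y hy
  induction hx using Submodule.span_induction with
  | mem x hx => exact h1 x hx y hy
  | zero => exact H.zero_left y
  | add x z _ _ hx hz => rw [H.add_left, hx, hz, add_zero]
  | smul a x _ hx => rw [H.smul_left, hx, mul_zero]

theorem orbSpan_isot {W : Type u} [AddCommGroup W] [Module K W] (H : Herm C W) (h : W ≃ₗ[K] W)
    (hh : ∀ x y, H.f (h x) (h y) = H.f x y) {m : ℕ} (y : Fin m → W)
    (hy : ∀ i j, ∀ r : ℕ, H.f (y i) ((h ^ r) (y j)) = 0) :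
    ∀ x ∈ orbSpan h y, ∀ z ∈ orbSpan h y, H.f x z = 0 := by
  refine isot_span H _ ?_
  rintro _ ⟨i, r, rfl⟩ _ ⟨j, s, rfl⟩
  rcases le_total r s with hrs | hrs
  · obtain ⟨t, rfl⟩ := Nat.exists_eq_add_of_le hrs
    rw [pow_add]
    show H.f ((h ^ r) (y i)) ((h ^ r) ((h ^ t) (y j))) = 0
    rw [isom_pow H h hh]
    exact hy i j t
  · obtain ⟨t, rfl⟩ := Nat.exists_eq_add_of_le hrs
    rw [pow_add]
    show H.f ((h ^ s) ((h ^ t) (y i))) ((h ^ s) (y j)) = 0
    rw [isom_pow H h hh, H.symm (y j) ((h ^ t) (y i)), hy j i t, map_zero]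

open Classical in
/-- Task E1: `ñ_m` of a graph counts the `m`-tuples generating a totally isotropic subspace. -/
theorem nt_graph {W : Type u} [AddCommGroup W] [Module K W] [Finite W]
    (H : Herm C W) (h : W ≃ₗ[K] W) (hh : ∀ x y, H.f (h x) (h y) = H.f x y) (m : ℕ) :
    nt H h.toLinearMap.graph m =
      (Nat.card {y : Fin m → W // ∀ i j, ∀ r : ℕ, H.f (y i) ((h ^ r) (y j)) = 0} : ℚ) := by
  let _ := Fintype.ofFinite (Submodule K W)
  let _ := Fintype.ofFinite W
  have hpow : ∀ D : Submodule K W, (Nat.card D : ℚ) ^ m =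
      ∑ y : Fin m → W, if ∀ i, y i ∈ D then 1 else 0 := by
    intro D
    rw [← Nat.cast_pow]
    have h1 : Nat.card D ^ m = Nat.card (Fin m → D) := by
      rw [Nat.card_pi]
      simp
    rw [h1]
    have e : (Fin m → D) ≃ {y : Fin m → W // ∀ i, y i ∈ D} :=
      { toFun := fun y => ⟨fun i => (y i : W), fun i => (y i).2⟩
        invFun := fun y i => ⟨y.1 i, y.2 i⟩
        left_inv := fun y => rfl
        right_inv := fun y => rfl }
    rw [Nat.card_congr e, Nat.card_eq_fintype_card, Fintype.card_subtype]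
    simp
  have hy : ∀ y : Fin m → W, (∑ D : Submodule K W, (if ∀ i, y i ∈ D then (1 : ℚ) else 0) *
      (chi (DD H h.toLinearMap.graph) D : ℚ)) =
      if ∀ i j, ∀ r : ℕ, H.f (y i) ((h ^ r) (y j)) = 0 then 1 else 0 := by
    intro y
    split_ifs with hc
    · have hmem : orbSpan h y ∈ DD H h.toLinearMap.graph := by
        rw [mem_DD_graph]
        exact ⟨orbSpan_isot H h hh y hc, orbSpan_stable h y⟩
      have h1 := chi_sum (DD H h.toLinearMap.graph) _ hmem
      have h2 : (∑ D : Submodule K W, (if ∀ i, y i ∈ D then (1 : ℤ) else 0) *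
          (chi (DD H h.toLinearMap.graph) D)) = 1 := by
        refine Eq.trans ?_ h1
        rw [Finset.sum_filter]
        refine Finset.sum_congr rfl (fun D _ => ?_)
        by_cases hD : D ∈ DD H h.toLinearMap.graph
        · by_cases hle : ∀ i, y i ∈ D
          · rw [if_pos hle, if_pos ⟨hD, orbSpan_le h y D ((mem_DD_graph H h D).1 hD).2 hle⟩,
              one_mul]
          · rw [if_neg hle, if_neg, zero_mul]
            rintro ⟨_, h3⟩
            exact hle (fun i => h3 (mem_orbSpan h y i))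
        · rw [chi_off _ _ hD, mul_zero]
          simp
      exact_mod_cast h2
    · refine Finset.sum_eq_zero (fun D _ => ?_)
      by_cases hD : D ∈ DD H h.toLinearMap.graph
      · rw [if_neg, zero_mul]
        intro hle
        apply hc
        intro i j r
        rw [mem_DD_graph] at hD
        exact hD.1 _ (hle i) _ (pow_stable h D hD.2 r _ (hle j))
      · rw [chi_off _ _ hD]
        simp
  rw [nt]
  calc ∑ D : Submodule K W, (Nat.card D : ℚ) ^ m * (chi (DD H h.toLinearMap.graph) D : ℚ)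
      = ∑ D : Submodule K W, ∑ y : Fin m → W, (if ∀ i, y i ∈ D then (1 : ℚ) else 0) *
          (chi (DD H h.toLinearMap.graph) D : ℚ) := by
        refine Finset.sum_congr rfl (fun D _ => ?_)
        rw [hpow D, Finset.sum_mul]
    _ = ∑ y : Fin m → W, ∑ D : Submodule K W, (if ∀ i, y i ∈ D then (1 : ℚ) else 0) *
          (chi (DD H h.toLinearMap.graph) D : ℚ) := Finset.sum_comm
    _ = ∑ y : Fin m → W, (if ∀ i j, ∀ r : ℕ, H.f (y i) ((h ^ r) (y j)) = 0 then (1 : ℚ) else 0) :=
        Finset.sum_congr rfl (fun y _ => hy y)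
    _ = _ := by
        rw [Nat.card_eq_fintype_card, Fintype.card_subtype]
        simp

/-- an `h`-stable subspace of a finite space is mapped onto itself -/
theorem stable_onto {W : Type u} [AddCommGroup W] [Module K W] [Finite W] (h : W ≃ₗ[K] W)
    (D : Submodule K W) (hD : ∀ x ∈ D, h x ∈ D) : ∀ x ∈ D, ∃ z ∈ D, h z = x := by
  have hfd : FiniteDimensional K W := Module.Finite.of_finite
  have h1 : Submodule.map h.toLinearMap D = D := by
    apply Submodule.eq_of_le_of_finrank_eq
    · rintro _ ⟨z, hz, rfl⟩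
      exact hD z hz
    · exact (Submodule.equivMapOfInjective h.toLinearMap h.injective D).finrank_eq.symm
  intro x hx
  rw [← h1] at hx
  obtain ⟨z, hz, hzx⟩ := hx
  exact ⟨z, hz, hzx⟩

/-- If `D` is totally isotropic and forward stable under `Λ_{w,0}`, then adding the span of the
orbit of `w` gives an `h`-stable totally isotropic subspace. -/
theorem DD_Lam_sup {W : Type u} [AddCommGroup W] [Module K W] [Finite W] (H : Herm C W)
    (h : W ≃ₗ[K] W) (hh : ∀ x y, H.f (h x) (h y) = H.f x y) (w : W)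
    (hw : ∀ r : ℕ, H.f w ((h ^ r) w) = 0) (D : Submodule K W) (hD : D ∈ DD H (Lam H h w 0)) :
    D ⊔ orbSpan h (fun _ : Fin 1 => w) ∈ DD H h.toLinearMap.graph := by
  rw [mem_DD_graph]
  set Dw := orbSpan h (fun _ : Fin 1 => w) with hDw
  obtain ⟨hti, hst⟩ := hD
  have h1 : ∀ x ∈ D, H.f w x = 0 := by
    intro x hx
    obtain ⟨x', _, α, _, h2⟩ := hst x hx
    rw [zero_mul] at h2
    exact h2
  have hwDw : w ∈ Dw := mem_orbSpan h (fun _ : Fin 1 => w) 0
  have hDwti := orbSpan_isot H h hh (fun _ : Fin 1 => w) (fun _ _ r => hw r)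
  rw [← hDw] at hDwti
  have hDwst := orbSpan_stable h (fun _ : Fin 1 => w)
  rw [← hDw] at hDwst
  have hstab : ∀ x ∈ D ⊔ Dw, h x ∈ D ⊔ Dw := by
    intro x hx
    obtain ⟨a, ha, b, hb, rfl⟩ := Submodule.mem_sup.1 hx
    rw [map_add]
    refine Submodule.add_mem _ ?_ ((le_sup_right : Dw ≤ D ⊔ Dw) (hDwst b hb))
    obtain ⟨x', hx', α, h2, _⟩ := hst a ha
    have h3 : h a = x' - α • h w := by
      simp only at h2
      rw [h2, map_add, map_smul, add_sub_cancel_right]
    rw [h3]
    exact Submodule.sub_mem _ ((le_sup_left : D ≤ D ⊔ Dw) hx')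
      (Submodule.smul_mem _ _ ((le_sup_right : Dw ≤ D ⊔ Dw) (hDwst w hwDw)))
  have hwperp : ∀ x ∈ D ⊔ Dw, H.f w x = 0 := by
    intro x hx
    obtain ⟨a, ha, b, hb, rfl⟩ := Submodule.mem_sup.1 hx
    rw [H.add_right, h1 a ha, hDwti w hwDw b hb, add_zero]
  have hrperp : ∀ r : ℕ, ∀ x ∈ D ⊔ Dw, H.f ((h ^ r) w) x = 0 := by
    intro r
    induction r with
    | zero => intro x hx; rw [pow_zero]; exact hwperp x hx
    | succ r ih =>
      intro x hx
      obtain ⟨z, hz, rfl⟩ := stable_onto h _ hstab x hx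
      rw [pow_succ']
      show H.f (h ((h ^ r) w)) (h z) = 0
      rw [hh]
      exact ih z hz
  have hDwperp : ∀ y ∈ Dw, ∀ x ∈ D ⊔ Dw, H.f y x = 0 := by
    intro y hy x hx
    rw [hDw, orbSpan] at hy
    induction hy using Submodule.span_induction with
    | mem y hy =>
      obtain ⟨i, r, rfl⟩ := hy
      exact hrperp r x hx
    | zero => exact H.zero_left x
    | add y z _ _ hy hz => rw [H.add_left, hy, hz, add_zero]
    | smul a y _ hy => rw [H.smul_left, hy, mul_zero]
  refine ⟨?_, hstab⟩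
  intro x hx y hy
  obtain ⟨a, ha, b, hb, rfl⟩ := Submodule.mem_sup.1 hx
  obtain ⟨a', ha', b', hb', rfl⟩ := Submodule.mem_sup.1 hy
  rw [H.add_left, hDwperp b hb _ hy, add_zero, H.add_right, hti a ha a' ha', zero_add,
    H.symm b' a, hDwperp b' hb' a ((le_sup_left : D ≤ D ⊔ Dw) ha), map_zero]

theorem DD_graph_Lam {W : Type u} [AddCommGroup W] [Module K W] (H : Herm C W)
    (h : W ≃ₗ[K] W) (w : W) (D : Submodule K W) (hD : D ∈ DD H h.toLinearMap.graph)
    (hwD : w ∈ D) : D ∈ DD H (Lam H h w 0) := by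
  rw [mem_DD_graph] at hD
  refine ⟨hD.1, fun x hx => ⟨h x, hD.2 x hx, 0, by simp, ?_⟩⟩
  rw [zero_mul]
  exact hD.1 w hwD x hx

theorem chi_Lam {W : Type u} [AddCommGroup W] [Module K W] [Finite W] (H : Herm C W)
    (h : W ≃ₗ[K] W) (hh : ∀ x y, H.f (h x) (h y) = H.f x y) (w : W)
    (hw : ∀ r : ℕ, H.f w ((h ^ r) w) = 0) (D : Submodule K W) :
    chi (DD H (Lam H h w 0)) D = (open Classical in
      if w ∈ D then chi (DD H h.toLinearMap.graph) D else 0) := by
  classical
  have hcl : ∀ E ∈ DD H (Lam H h w 0), E ⊔ orbSpan h (fun _ : Fin 1 => w) ∈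
      DD H (Lam H h w 0) := by
    intro E hE
    exact DD_graph_Lam H h w _ (DD_Lam_sup H h hh w hw E hE)
      ((le_sup_right : _ ≤ E ⊔ orbSpan h (fun _ : Fin 1 => w))
        (mem_orbSpan h (fun _ : Fin 1 => w) 0))
  by_cases hD : D ∈ DD H (Lam H h w 0)
  · by_cases hne : D ⊔ orbSpan h (fun _ : Fin 1 => w) = D
    · have hwD : w ∈ D := by
        rw [← hne]
        exact (le_sup_right : _ ≤ D ⊔ orbSpan h (fun _ : Fin 1 => w))
          (mem_orbSpan h (fun _ : Fin 1 => w) 0)
      rw [if_pos hwD]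
      refine chi_congr _ _ _ (fun E hE => ⟨fun h1 => ?_, fun h1 => ?_⟩)
      · have h2 := DD_Lam_sup H h hh w hw E h1
        have h3 : E ⊔ orbSpan h (fun _ : Fin 1 => w) = E := by
          rw [sup_eq_left]
          refine le_trans ?_ hE
          rw [← hne]
          exact le_sup_right
        rw [h3] at h2
        exact h2
      · exact DD_graph_Lam H h w E h1 (hE hwD)
    · have h1 : chi (DD H (Lam H h w 0)) D = 0 := by
        refine chi_closure _ D hD (fun E => E ⊔ orbSpan h (fun _ : Fin 1 => w))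
          (fun E hE _ => hcl E hE) (fun E _ _ => le_sup_left)
          (fun E _ _ F _ hEF => sup_le_sup_right hEF _) (fun E _ _ => ?_) hne
        simp only [sup_assoc, sup_idem]
      rw [h1]
      split_ifs with hwD
      · symm
        refine chi_off _ _ (fun h2 => hne ?_)
        rw [sup_eq_left]
        exact orbSpan_le h _ D ((mem_DD_graph H h D).1 h2).2 (fun _ => hwD)
      · rfl
  · rw [chi_off _ _ hD]
    split_ifs with hwD
    · symm
      exact chi_off _ _ (fun h2 => hD (DD_graph_Lam H h w D h2 hwD))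
    · rfl

open Classical in
/-- Task E2 -/
theorem taskE {W : Type u} [AddCommGroup W] [Module K W] [Fintype W]
    (H : Herm C W) (h : W ≃ₗ[K] W) (hh : ∀ x y, H.f (h x) (h y) = H.f x y) (m : ℕ) :
    ∑ w ∈ univ.filter (fun w : W => ∀ r : ℕ, H.f w ((h ^ r) w) = 0), nt H (Lam H h w 0) m =
      nt H h.toLinearMap.graph (m + 1) := by
  let _ := Fintype.ofFinite (Submodule K W)
  have h1 : ∀ w ∈ univ.filter (fun w : W => ∀ r : ℕ, H.f w ((h ^ r) w) = 0),
      nt H (Lam H h w 0) m = ∑ D : Submodule K W, (if w ∈ D then (Nat.card D : ℚ) ^ m *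
        (chi (DD H h.toLinearMap.graph) D : ℚ) else 0) := by
    intro w hw
    rw [Finset.mem_filter] at hw
    rw [nt]
    refine Finset.sum_congr rfl (fun D _ => ?_)
    rw [chi_Lam H h hh w hw.2 D]
    split_ifs <;> simp
  rw [Finset.sum_congr rfl h1, Finset.sum_comm, nt]
  refine Finset.sum_congr rfl (fun D _ => ?_)
  by_cases hD : D ∈ DD H h.toLinearMap.graph
  · rw [← Finset.sum_filter, Finset.filter_filter, Finset.sum_const, nsmul_eq_mul]
    have h2 : univ.filter (fun w : W => (∀ r : ℕ, H.f w ((h ^ r) w) = 0) ∧ w ∈ D) =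
        univ.filter (fun w : W => w ∈ D) := by
      ext w
      simp only [Finset.mem_filter, Finset.mem_univ, true_and]
      refine ⟨fun h3 => h3.2, fun h3 => ⟨fun r => ?_, h3⟩⟩
      rw [mem_DD_graph] at hD
      exact hD.1 w h3 _ (pow_stable h D hD.2 r w h3)
    have h3 : (univ.filter (fun w : W => w ∈ D)).card = Nat.card D := by
      rw [← Fintype.card_subtype, Nat.card_eq_fintype_card]
    rw [h2, h3, pow_succ]
    ring
  · rw [chi_off _ _ hD]
    simp

end E

end Pool.Agent.MP_359fef_co
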